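import Pool.Agent.H.MP_fa2eca_lc.A
import Pool.Agent.Lib.helper21.Sig

set_option autoImplicit false

/-! A measure under which every string is rarely a factor has small total mass. -/

namespace Pool.Agent.H.MP_c57dc8_lc

open Pool.Agent.H.MP_d04dff_lc Finset

def B (n : ℕ) : Finset Str := ((all n).filter fun s => s.length = n).toFinset

theorem mem_B {n : ℕ} {s : Str} : s ∈ B n ↔ s.length = n := by
  simp only [B, List.mem_toFinset, List.mem_filter, mem_all, decide_eq_true_eq]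
  omega

theorem B_succ (n : ℕ) : B (n + 1) = (B n).image (· ++ [false]) ∪ (B n).image (· ++ [true]) := by
  ext s
  simp only [mem_B, mem_union, mem_image]
  constructor
  · intro h
    rcases List.eq_nil_or_concat s with rfl | ⟨t, b, rfl⟩
    · simp at h
    · cases b
      · exact Or.inl ⟨t, by simpa using h, by simp⟩
      · exact Or.inr ⟨t, by simpa using h, by simp⟩
  · rintro (⟨t, h, rfl⟩ | ⟨t, h, rfl⟩) <;> simp [h]

theorem sum_B (g : Str → ℝ) (n : ℕ) :
    ∑ s ∈ B (n + 1), g s = ∑ s ∈ B n, (g (s ++ [false]) + g (s ++ [true])) := by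
  rw [B_succ, sum_union, sum_image (by simp [Set.InjOn]), sum_image (by simp [Set.InjOn]),
    sum_add_distrib]
  rw [disjoint_left]
  simp only [mem_image]
  rintro _ ⟨t, -, rfl⟩ ⟨u, -, h⟩
  simpa using congrArg List.getLast? h

theorem B_zero : B 0 = {[]} := by ext s; simp [mem_B]

theorem card_B (n : ℕ) : (B n).card = 2 ^ n := by
  have : ∀ n, ∑ _s ∈ B n, (1 : ℝ) = 2 ^ n := fun n => by
    induction n with
    | zero => simp [B_zero]
    | succ n ih => rw [sum_B, sum_add_distrib, ih]; ring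
  have h := this n
  rw [sum_const, nsmul_eq_mul, mul_one] at h
  exact_mod_cast h

def sub (X : Str) (n : ℕ) : Finset Str := (B n).filter (· <:+: X)

theorem cnt (Q : Finset Str) (n t : ℕ) :
    ((B (n * t)).filter fun τ => sub τ n ⊆ Q).card ≤ Q.card ^ t := by
  induction t with
  | zero => exact (card_filter_le _ _).trans (by simp [B_zero])
  | succ t ih =>
    rw [pow_succ']
    refine le_trans ?_ (Nat.mul_le_mul_left _ ih)
    rw [← card_product]
    refine card_le_card_of_injOn (fun τ => (τ.take n, τ.drop n)) (fun τ hτ => ?_)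
      fun τ _ τ' _ e => ?_
    · obtain ⟨h1, h2⟩ := mem_filter.1 (mem_coe.1 hτ)
      rw [mem_B, Nat.mul_succ] at h1
      refine mem_coe.2 (mem_product.2 ⟨h2 (mem_filter.2 ⟨mem_B.2 (by simp; omega),
        (List.take_prefix _ _).isInfix⟩), mem_filter.2 ⟨mem_B.2 (by simp; omega),
          fun σ hσ => h2 (mem_filter.2 ⟨(mem_filter.1 hσ).1,
            (mem_filter.1 hσ).2.trans (List.drop_suffix _ _).isInfix⟩)⟩⟩)
    · simp only [Prod.mk.injEq] at e
      rw [← List.take_append_drop n τ, e.1, e.2, List.take_append_drop]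

theorem cnt2 (n t b : ℕ) :
    ((B (n * t)).filter fun τ => (sub τ n).card ≤ b).card ≤ 2 ^ 2 ^ n * b ^ t := by
  refine le_trans (card_le_card (t := ((B n).powerset.filter fun Q => Q.card ≤ b).biUnion
    fun Q => (B (n * t)).filter fun τ => sub τ n ⊆ Q) fun τ hτ => ?_) ?_
  · obtain ⟨h1, h2⟩ := mem_filter.1 hτ
    exact mem_biUnion.2 ⟨sub τ n, mem_filter.2 ⟨mem_powerset.2 (filter_subset _ _), h2⟩,
      mem_filter.2 ⟨h1, Subset.refl _⟩⟩
  · refine (card_biUnion_le_card_mul _ _ (b ^ t) fun Q hQ => (cnt Q n t).trans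
      (Nat.pow_le_pow_left (mem_filter.1 hQ).2 _)).trans (Nat.mul_le_mul_right _ ?_)
    exact (card_filter_le _ _).trans (by rw [card_powerset, card_B])

/-- The tower of scales. -/
def tw (D : ℕ) : ℕ → ℕ → ℕ
  | 0, u => u
  | a + 1, u => tw D a (u * 2 ^ (u * D))

theorem le_tw (D : ℕ) : ∀ a u, u ≤ tw D a u
  | 0, _ => le_rfl
  | a + 1, _ => (Nat.le_mul_of_pos_right _ (by positivity)).trans (le_tw D a _)

theorem core (D : ℕ) (ν : Str → ℝ) (h0 : ∀ X, 0 ≤ ν X) : ∀ (a u : ℕ) (S F : Finset Str), 1 ≤ u →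
    S.card ≤ 2 ^ ((a + 2) * u) → (∀ X ∈ F, tw D a u * D ≤ X.length ∧ sub X (u * D) ⊆ S) →
    (∀ σ v, u ≤ v → σ.length = v * D → ∑ X ∈ F with σ <:+: X, ν X ≤ (1 / 2) ^ (4 * v)) →
    ∑ X ∈ F, ν X ≤ (a + 1) * (1 / 2) ^ (2 * u) := by
  have key : ∀ (a u : ℕ) (S F : Finset Str), S.card ≤ 2 ^ ((a + 2) * u) →
      (∀ X ∈ F, sub X (u * D) ⊆ S) →
      (∀ σ : Str, σ.length = u * D → ∑ X ∈ F with σ <:+: X, ν X ≤ (1 / 2) ^ (4 * u)) →
      ∑ X ∈ F with 2 ^ (a * u) ≤ (sub X (u * D)).card, ν X ≤ (1 / 2) ^ (2 * u) := by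
    intro a u S F h1 h2 h3
    have h4 : (∑ X ∈ F with 2 ^ (a * u) ≤ (sub X (u * D)).card, ν X) * 2 ^ (a * u) ≤
        ∑ X ∈ F, ∑ σ ∈ S ∩ B (u * D), if σ <:+: X then ν X else 0 := by
      rw [sum_mul]
      refine (sum_le_sum fun X hX => ?_).trans (sum_le_sum_of_subset_of_nonneg (filter_subset _ _)
        fun X _ _ => sum_nonneg fun σ _ => by split_ifs; exacts [h0 X, le_rfl])
      obtain ⟨h5, h6⟩ := mem_filter.1 hX
      rw [← sum_filter, sum_const, nsmul_eq_mul, mul_comm]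
      refine mul_le_mul_of_nonneg_right ?_ (h0 X)
      exact_mod_cast h6.trans (card_le_card fun σ hσ => mem_filter.2
        ⟨mem_inter.2 ⟨h2 X h5 hσ, (mem_filter.1 hσ).1⟩, (mem_filter.1 hσ).2⟩)
    rw [sum_comm] at h4
    have h5 := h4.trans (sum_le_card_nsmul _ _ ((1 / 2) ^ (4 * u)) fun σ hσ => by
      rw [← sum_filter]; exact h3 σ (mem_B.1 (mem_inter.1 hσ).2))
    have h6 : (((S ∩ B (u * D)).card : ℕ) : ℝ) ≤ 2 ^ ((a + 2) * u) := by
      exact_mod_cast (card_le_card inter_subset_left).trans h1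
    rw [nsmul_eq_mul] at h5
    refine le_of_mul_le_mul_right (h5.trans ((mul_le_mul_of_nonneg_right h6 (by positivity)).trans
      (le_of_eq ?_))) (by positivity)
    rw [show 4 * u = 2 * u + 2 * u by ring, add_mul, pow_add, pow_add]
    simp only [one_div, inv_pow]
    field_simp
  intro a
  induction a with
  | zero =>
    intro u S F _ h1 h2 h3
    have := key 0 u S F h1 (fun X hX => (h2 X hX).2) fun σ => h3 σ u le_rfl
    rw [filter_true_of_mem fun X hX => ?_] at this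
    · simpa using this
    · rw [zero_mul, pow_zero]
      exact card_pos.2 ⟨X.take (u * D), mem_filter.2 ⟨mem_B.2 (by simpa [tw] using (h2 X hX).1),
        (List.take_prefix _ _).isInfix⟩⟩
  | succ a ih =>
    intro u S F hu h1 h2 h3
    have h4 := key (a + 1) u S F h1 (fun X hX => (h2 X hX).2) fun σ => h3 σ u le_rfl
    have hu' : u ≤ u * 2 ^ (u * D) := Nat.le_mul_of_pos_right _ (by positivity)
    have h5 := ih (u * 2 ^ (u * D)) ((B (u * D * 2 ^ (u * D))).filter
      fun τ => (sub τ (u * D)).card ≤ 2 ^ ((a + 1) * u))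
      (F.filter fun X => ¬ 2 ^ ((a + 1) * u) ≤ (sub X (u * D)).card) (hu.trans hu')
      ((cnt2 _ _ _).trans (by
        rw [← pow_mul, ← pow_add]
        refine Nat.pow_le_pow_right (by norm_num) ?_
        have : 2 ^ (u * D) ≤ u * 2 ^ (u * D) := Nat.le_mul_of_pos_left _ hu
        nlinarith))
      (fun X hX => ⟨(h2 X (mem_filter.1 hX).1).1, fun τ hτ => mem_filter.2
        ⟨by rw [mul_right_comm]; exact (mem_filter.1 hτ).1, le_trans (card_le_card fun σ hσ =>
          mem_filter.2 ⟨(mem_filter.1 hσ).1, (mem_filter.1 hσ).2.trans (mem_filter.1 hτ).2⟩)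
          (not_le.1 (mem_filter.1 hX).2).le⟩⟩)
      fun σ v hv hσ => le_trans (sum_le_sum_of_subset_of_nonneg
        (filter_subset_filter _ (filter_subset _ _)) fun X _ _ => h0 X) (h3 σ v (hu'.trans hv) hσ)
    have h6 : ((1 : ℝ) / 2) ^ (2 * (u * 2 ^ (u * D))) ≤ (1 / 2) ^ (2 * u) :=
      pow_le_pow_of_le_one (by norm_num) (by norm_num) (by omega)
    rw [← sum_filter_add_sum_filter_not F fun X => 2 ^ ((a + 1) * u) ≤ (sub X (u * D)).card]
    push_cast
    nlinarith [mul_le_mul_of_nonneg_left h6 (show (0 : ℝ) ≤ a + 1 by positivity)]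

theorem small (ν : Str → ℝ) (h0 : ∀ X, 0 ≤ ν X) (n : ℕ) (F : Finset Str)
    (h1 : ∀ X ∈ F, tw (n + 2) n (n + 1) * (n + 2) ≤ X.length)
    (h2 : ∀ σ v, n + 1 ≤ v → σ.length = v * (n + 2) →
      ∑ X ∈ F with σ <:+: X, ν X ≤ (1 / 2) ^ (4 * v)) : ∑ X ∈ F, ν X ≤ (1 / 2) ^ n := by
  refine (core (n + 2) ν h0 n (n + 1) (B ((n + 1) * (n + 2))) F (by omega)
    (by rw [card_B, mul_comm]) (fun X hX => ⟨h1 X hX, filter_subset _ _⟩) h2).trans ?_
  have h3 : ((n : ℝ) + 1) * (1 / 2) ^ (n + 2) ≤ 1 := by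
    rw [one_div, inv_pow, ← div_eq_mul_inv, div_le_one (by positivity)]
    exact_mod_cast (Nat.lt_two_pow_self (n := n + 2)).le.trans' (by omega)
  rw [show 2 * (n + 1) = (n + 2) + n by ring, pow_add, ← mul_assoc]
  exact mul_le_of_le_one_left (by positivity) h3

end Pool.Agent.H.MP_c57dc8_lc
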