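import Pool.Agent.H.MP_c57dc8_lc.A

set_option autoImplicit false

/-! Enumerating forbidden factors against an enumerable semimeasure. -/

namespace Pool.Agent.H.MP_c57dc8_lc

open Pool.Agent.H.MP_d04dff_lc Pool.Agent.H.MP_fa2eca_lc Pool.Agent.Lib.helper21.KC Filter

/-- Optimal machine among those whose domain is an antichain for the initial segment order. -/
def OptP (U : List Bool →. List Bool) : Prop :=
  let PF := fun V : List Bool →. List Bool =>
    Partrec V ∧ ∀ p q, (V p).Dom → (V q).Dom → p <+: q → p = q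
  PF U ∧ ∀ V, PF V → ∃ c, Best U V c

/-- Left-c.e. continuous semimeasure. -/
def Semi (M : List Bool → ℝ) : Prop :=
  (∀ σ, 0 ≤ M σ) ∧ M [] ≤ 1 ∧ (∀ σ, M (σ ++ [false]) + M (σ ++ [true]) ≤ M σ) ∧
    REPred fun z : List Bool × ℕ × ℕ => (z.2.1 : ℝ) / 2 ^ z.2.2 < M z.1

/-- Sequences all of whose blocks are complex. -/
def SC (U : List Bool →. List Bool) (f : ℕ → ℝ) (c : ℕ) : Set (ℕ → Bool) :=
  {X | ∀ i n, f n - c ≤ K U (pre (fun j => X (i + j)) n)}

/-- Order function. -/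
def Ord (h : ℕ → ℕ) : Prop := Computable h ∧ Monotone h ∧ Tendsto h atTop atTop

def Deep (M : List Bool → ℝ) (P : Set (ℕ → Bool)) : Prop :=
  ∃ h, Ord h ∧ ∀ n, ∀ F : Finset (List Bool), (∀ σ ∈ F, ∃ X ∈ P, σ = pre X (h n)) →
    ∑ σ ∈ F, M σ ≤ (1 / 2) ^ n

section chain

variable {α β : Type} [Primcodable α] [Primcodable β]

theorem sig_re {p : α → Prop} (h : REPred p) : Sig p :=
  ((Sig.mem h).comp (Primrec.id.pair (Primrec.const ()))).of_eq fun a => by
    simp [Part.mem_assert_iff]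

theorem chain {S : α → List β → β → Prop} (hS : Sig fun z : (α × List β) × β => S z.1.1 z.1.2 z.2)
    {I : α → List β → Prop} (h0 : ∀ a, I a []) (h1 : ∀ a A b, I a A → S a A b → I a (b :: A))
    (h2 : ∀ a, ∃ m, ∀ A, I a A → A.length ≤ m) : ∃ R : α → β → Prop,
      (Sig fun z : α × β => R z.1 z.2) ∧
      ∀ a, ∃ A, I a A ∧ (∀ b, ¬ S a A b) ∧ ∀ b, R a b ↔ b ∈ A := by
  classical
  obtain ⟨g, g1, g2, g3⟩ := Sig.unif (R := fun (z : α × List β) b => S z.1 z.2 b) hS
  let it : α × ℕ →. List β := fun z => Nat.rec (Part.some [])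
    (fun _ IH => IH.bind fun A => (g (z.1, A)).map (· :: A)) z.2
  have hit : Partrec it := by
    have a1 : Partrec fun w : (α × ℕ) × ℕ × List β => g (w.1.1, w.2.2) :=
      g1.comp ((Computable.fst.comp Computable.fst).pair (Computable.snd.comp Computable.snd))
    have a2 : Partrec fun w : (α × ℕ) × ℕ × List β => (g (w.1.1, w.2.2)).map (· :: w.2.2) :=
      a1.map (Primrec.list_cons.comp Primrec.snd
        (Primrec.snd.comp (Primrec.snd.comp Primrec.fst))).to_comp.to₂
    exact Partrec.nat_rec (α := α × ℕ) Computable.snd (Computable.const []).partrec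
      (h := fun z w => (g (z.1, w.2)).map (· :: w.2)) a2
  have st : ∀ a t A', A' ∈ it (a, t + 1) ↔ ∃ A ∈ it (a, t), ∃ b ∈ g (a, A), b :: A = A' :=
    fun a t A' => by
      show A' ∈ (it (a, t)).bind _ ↔ _
      simp only [Part.mem_bind_iff, Part.mem_map_iff]
  have inv : ∀ a t A, A ∈ it (a, t) → I a A ∧ A.length = t := fun a t => by
    induction t with
    | zero => exact fun A h => by rw [Part.mem_some_iff.1 h]; exact ⟨h0 a, rfl⟩
    | succ t ih =>
      intro A' h
      obtain ⟨A, h3, b, h4, rfl⟩ := (st _ _ _).1 h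
      exact ⟨h1 _ _ _ (ih A h3).1 (g2 _ _ h4), by simp [(ih A h3).2]⟩
  have mono : ∀ a t t' A A', t ≤ t' → A ∈ it (a, t) → A' ∈ it (a, t') → A ⊆ A' := by
    intro a t t' A A' h h3
    induction h generalizing A' with
    | refl => exact fun h4 => Part.mem_unique h3 h4 ▸ List.Subset.refl _
    | step _ ih =>
      intro h4
      obtain ⟨C, h5, b, -, rfl⟩ := (st _ _ _).1 h4
      exact List.Subset.trans (ih C h5) (List.subset_cons_self _ _)
  refine ⟨fun a b => ∃ w : ℕ × List β, w.2 ∈ it (a, w.1) ∧ b ∈ w.2, Sig.ex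
    (R := fun (z : α × β) (w : ℕ × List β) => w.2 ∈ it (z.1, w.1) ∧ z.2 ∈ w.2)
    (((Sig.mem hit).comp (((Primrec.fst.comp Primrec.fst).pair
      (Primrec.fst.comp Primrec.snd)).pair (Primrec.snd.comp Primrec.snd))).and
      (Sig.prim (mem_prim.comp (Primrec.snd.comp Primrec.fst) (Primrec.snd.comp Primrec.snd)))),
    fun a => ?_⟩
  obtain ⟨m, hm⟩ := h2 a
  let P : ℕ → Prop := fun t => ∃ A, A ∈ it (a, t)
  obtain ⟨A, hA⟩ : P (Nat.findGreatest P m) :=
    Nat.findGreatest_spec (Nat.zero_le m) ⟨[], Part.mem_some _⟩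
  have top : ∀ t, P t → t ≤ Nat.findGreatest P m := fun t ⟨C, h⟩ =>
    Nat.le_findGreatest ((inv _ _ _ h).2 ▸ hm C (inv _ _ _ h).1) ⟨C, h⟩
  refine ⟨A, (inv _ _ _ hA).1, fun b hb => ?_, fun b => ⟨fun ⟨w, h3, h4⟩ =>
    mono _ _ _ _ _ (top _ ⟨_, h3⟩) h3 hA h4, fun h => ⟨(_, A), hA, h⟩⟩⟩
  obtain ⟨b', h3⟩ := g3 (a, A) b hb
  exact Nat.not_succ_le_self _ (top _ ⟨_, (st _ _ _).2 ⟨A, hA, b', h3, rfl⟩⟩)

end chain

theorem sum_prim : Primrec fun T : List (Str × ℕ) => (T.map Prod.snd).sum :=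
  (Primrec.list_foldr Primrec.id (Primrec.const 0) (h := fun _ z => z.1.2 + z.2)
    (Primrec.nat_add.comp (Primrec.snd.comp (Primrec.fst.comp Primrec.snd))
      (Primrec.snd.comp Primrec.snd)).to₂).of_eq fun T => by
    induction T with
    | nil => rfl
    | cons y T ih => simp only [id, List.foldr_cons, List.map_cons, List.sum_cons] at ih ⊢; rw [ih]

theorem big {M : Str → ℝ} (hM : Semi M) : ∃ G : List Str → ℕ → Prop,
    (Sig fun z : List Str × ℕ => G z.1 z.2) ∧ ∀ S l, (G S l → (1 / 2) ^ l ≤ (S.map M).sum) ∧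
      ((1 / 2) ^ l < (S.map M).sum → G S l) := by
  let G : List Str → ℕ → Prop := fun S l => ∃ w : ℕ × List (Str × ℕ), (w.2.map Prod.fst = S ∧
    2 ^ w.1 ≤ 2 ^ l * (w.2.map Prod.snd).sum) ∧
      ∀ y ∈ w.2, y.2 = 0 ∨ (y.2 : ℝ) / 2 ^ w.1 < M y.1
  have a1 : Primrec fun z : (List Str × ℕ) × ℕ × List (Str × ℕ) => z.2.2 :=
    Primrec.snd.comp Primrec.snd
  have a2 : Sig fun x : ((List Str × ℕ) × ℕ × List (Str × ℕ)) × Str × ℕ =>
      x.2.2 = 0 ∨ (x.2.2 : ℝ) / 2 ^ x.1.2.1 < M x.2.1 :=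
    (Sig.prim (Primrec.eq.comp (Primrec.snd.comp Primrec.snd) (Primrec.const 0))).or
      ((sig_re hM.2.2.2).comp ((Primrec.fst.comp Primrec.snd).pair
        ((Primrec.snd.comp Primrec.snd).pair (Primrec.fst.comp (Primrec.snd.comp Primrec.fst)))))
  refine ⟨G, Sig.ex (R := fun (z : List Str × ℕ) (w : ℕ × List (Str × ℕ)) =>
    (w.2.map Prod.fst = z.1 ∧ 2 ^ w.1 ≤ 2 ^ z.2 * (w.2.map Prod.snd).sum) ∧
      ∀ y ∈ w.2, y.2 = 0 ∨ (y.2 : ℝ) / 2 ^ w.1 < M y.1) ((Sig.prim
    ((Primrec.eq.comp (Primrec.list_map a1 (Primrec.fst.comp Primrec.snd).to₂)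
      (Primrec.fst.comp Primrec.fst)).and (Primrec.nat_le.comp
        (pow2.comp (Primrec.fst.comp Primrec.snd)) (Primrec.nat_mul.comp
          (pow2.comp (Primrec.snd.comp Primrec.fst)) (sum_prim.comp a1))))).and
      (Sig.ball (R := fun (z : (List Str × ℕ) × ℕ × List (Str × ℕ)) (y : Str × ℕ) =>
        y.2 = 0 ∨ (y.2 : ℝ) / 2 ^ z.2.1 < M y.1) a2 a1)), fun S l => ⟨?_, fun h => ?_⟩⟩
  · rintro ⟨⟨k, T⟩, ⟨rfl, h1⟩, h2⟩
    have h3 : (((T.map Prod.snd).sum : ℕ) : ℝ) ≤ 2 ^ k * ((T.map Prod.fst).map M).sum := by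
      simp only at h2
      clear h1
      induction T with
      | nil => simp
      | cons y T ih =>
        have := ih fun z hz => h2 z (List.mem_cons_of_mem _ hz)
        simp only [List.map_cons, List.sum_cons, Nat.cast_add, mul_add]
        refine add_le_add ?_ this
        rcases h2 y List.mem_cons_self with h | h
        · rw [h, Nat.cast_zero]; exact mul_nonneg (by positivity) (hM.1 _)
        · rw [div_lt_iff₀ (by positivity)] at h; linarith
    have h4 : (2 : ℝ) ^ k ≤ 2 ^ l * ((T.map Prod.snd).sum : ℕ) := by exact_mod_cast h1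
    rw [one_div, inv_pow, inv_le_iff_one_le_mul₀ (by positivity)]
    refine le_of_mul_le_mul_left (a := 2 ^ k) ?_ (by positivity)
    nlinarith [mul_le_mul_of_nonneg_left h3 (show (0 : ℝ) ≤ 2 ^ l by positivity)]
  · obtain ⟨k, hk⟩ := pow_unbounded_of_one_lt (S.length / ((S.map M).sum - (1 / 2) ^ l))
      (one_lt_two (α := ℝ))
    rw [div_lt_iff₀ (sub_pos.2 h)] at hk
    have h3 : ∀ S : List Str, 2 ^ k * (S.map M).sum - S.length ≤
        (((S.map fun X => ⌈2 ^ k * M X⌉₊ - 1).sum : ℕ) : ℝ) := fun S => by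
      induction S with
      | nil => simp
      | cons X S ih =>
        simp only [List.map_cons, List.sum_cons, Nat.cast_add, mul_add, List.length_cons]
        have h1 := Nat.le_ceil (2 ^ k * M X)
        have h2 : (⌈2 ^ k * M X⌉₊ : ℝ) ≤ (⌈2 ^ k * M X⌉₊ - 1 : ℕ) + 1 := by
          exact_mod_cast (by omega)
        push_cast at ih ⊢
        linarith
    refine ⟨(k, S.map fun X => (X, ⌈2 ^ k * M X⌉₊ - 1)), ⟨by simp [Function.comp_def], ?_⟩, ?_⟩
    · simp only [List.map_map, Function.comp_def]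
      have h4 : (2 : ℝ) ^ k = 2 ^ l * (2 ^ k * (1 / 2) ^ l) := by
        rw [one_div, inv_pow]; field_simp
      have h5 := h3 S
      rw [← Nat.cast_le (α := ℝ), Nat.cast_mul, Nat.cast_pow, Nat.cast_pow, Nat.cast_ofNat]
      exact h4.trans_le (mul_le_mul_of_nonneg_left (by linarith) (by positivity))
    · intro y hy
      obtain ⟨X, -, rfl⟩ := List.mem_map.1 hy
      rcases Nat.eq_zero_or_pos ⌈2 ^ k * M X⌉₊ with h | h
      · exact Or.inl (by simp [h])
      · refine Or.inr ?_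
        dsimp only
        rw [div_lt_iff₀ (by positivity), mul_comm (M X), ← Nat.lt_ceil]
        omega

theorem infix_prim : PrimrecRel fun σ X : Str => σ <:+: X := by
  have h : PrimrecRel fun (i : ℕ) (z : Str × Str) => (z.2.drop i).take z.1.length = z.1 :=
    Primrec.eq.comp (Primrec.list_take.comp (Primrec.list_length.comp
      (Primrec.fst.comp Primrec.snd)) (Primrec.list_drop.comp Primrec.fst
        (Primrec.snd.comp Primrec.snd))) (Primrec.fst.comp Primrec.snd)
  have h2 := h.exists_mem_list.comp (Primrec.list_range.comp (Primrec.succ.comp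
    (Primrec.list_length.comp Primrec.snd))) Primrec.id
  refine PrimrecPred.of_eq h2 fun z => ⟨fun ⟨i, _, e⟩ => ?_, fun ⟨s, t, e⟩ => ⟨s.length, ?_, ?_⟩⟩
  · exact e ▸ (List.take_prefix _ _).isInfix.trans (List.drop_suffix _ _).isInfix
  · simp only [← e, List.mem_range, List.length_append]; omega
  · simp [← e]

theorem Semi.tot {M : Str → ℝ} (hM : Semi M) (n : ℕ) : ∑ X ∈ B n, M X ≤ 1 := by
  induction n with
  | zero => simpa [B_zero] using hM.2.1
  | succ n ih => rw [sum_B]; exact (Finset.sum_le_sum fun X _ => hM.2.2.1 X).trans ih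

def cand (L : ℕ) (A : List Str) (σ : Str) : List Str :=
  (all L).filter fun X => X.length = L ∧ (∀ τ ∈ A, ¬ τ <:+: X) ∧ σ <:+: X

theorem cand_sum (M : Str → ℝ) (L : ℕ) (A : List Str) (σ : Str) : ((cand L A σ).map M).sum =
    ∑ X ∈ (B L).filter (fun X => ∀ τ ∈ A, ¬ τ <:+: X) with σ <:+: X, M X := by
  rw [cand, ← List.sum_toFinset _ ((all_nodup L).filter _)]
  congr 1
  ext X
  simp only [List.mem_toFinset, List.mem_filter, mem_all, decide_eq_true_eq, Finset.mem_filter,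
    mem_B]
  exact ⟨fun h => ⟨⟨h.2.1, h.2.2.1⟩, h.2.2.2⟩, fun h => ⟨h.1.1.le, h.1.1, h.1.2, h.2⟩⟩

theorem cand_prim : Primrec fun z : (ℕ × List Str) × Str => cand z.1.1 z.1.2 z.2 := by
  have h1 : PrimrecRel fun τ X : Str => ¬ τ <:+: X := infix_prim.not
  exact filt (all_prim.comp (Primrec.fst.comp Primrec.fst))
    (PrimrecPred.decide (α := ((ℕ × List Str) × Str) × Str) (p := fun x =>
      x.2.length = x.1.1.1 ∧ (∀ τ ∈ x.1.1.2, ¬ τ <:+: x.2) ∧ x.1.2 <:+: x.2)
      ((Primrec.eq.comp (Primrec.list_length.comp Primrec.snd)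
      (Primrec.fst.comp (Primrec.fst.comp Primrec.fst))).and ((h1.forall_mem_list.comp
        (Primrec.snd.comp (Primrec.fst.comp Primrec.fst)) Primrec.snd).and
          (infix_prim.comp (Primrec.snd.comp Primrec.fst) Primrec.snd))))

theorem proc {M : Str → ℝ} (hM : Semi M) {L : ℕ → ℕ} (hL : Primrec L)
    (hL2 : ∀ n, tw (n + 2) n (n + 1) * (n + 2) ≤ L n) : ∃ R : ℕ → Str → Prop,
    (Sig fun z : ℕ × Str => R z.1 z.2) ∧ ∀ n,
      (∀ σ, R n σ → ∃ v, n + 1 ≤ v ∧ σ.length = v * (n + 2) ∧ σ.length ≤ L n) ∧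
      (∀ v, ¬ Many (2 ^ (4 * v) + 1) fun σ => R n σ ∧ σ.length = v * (n + 2)) ∧
      ∀ F : Finset Str, (∀ X ∈ F, X.length = L n ∧ ∀ σ, R n σ → ¬ σ <:+: X) →
        ∑ X ∈ F, M X ≤ (1 / 2) ^ n := by
  classical
  obtain ⟨G, hG, G2⟩ := big hM
  let S : ℕ → List Str → Str → Prop := fun n A σ =>
    (n + 1 ≤ σ.length / (n + 2) ∧ σ.length = σ.length / (n + 2) * (n + 2) ∧ σ.length ≤ L n) ∧
      G (cand (L n) A σ) (4 * (σ.length / (n + 2)))
  have a1 : Primrec fun z : (ℕ × List Str) × Str => z.1.1 := Primrec.fst.comp Primrec.fst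
  have a2 : Primrec fun z : (ℕ × List Str) × Str => z.2.length :=
    Primrec.list_length.comp Primrec.snd
  have a3 : Primrec fun z : (ℕ × List Str) × Str => z.1.1 + 2 :=
    Primrec.nat_add.comp a1 (Primrec.const 2)
  have a4 := Primrec.nat_div.comp a2 a3
  have a5 : Primrec fun z : (ℕ × List Str) × Str => cand (L z.1.1) z.1.2 z.2 :=
    (cand_prim.comp (((hL.comp a1).pair (Primrec.snd.comp Primrec.fst)).pair Primrec.snd)).of_eq
      fun _ => rfl
  have hS : Sig fun z : (ℕ × List Str) × Str => S z.1.1 z.1.2 z.2 :=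
    (Sig.prim ((Primrec.nat_le.comp (Primrec.succ.comp a1) a4).and ((Primrec.eq.comp a2
      (Primrec.nat_mul.comp a4 a3)).and (Primrec.nat_le.comp a2 (hL.comp a1))))).and
      (hG.comp (a5.pair (Primrec.nat_mul.comp (Primrec.const 4) a4)))
  let w : ℕ → Str → ℝ := fun n σ => (1 / 2) ^ (4 * (σ.length / (n + 2)))
  let I : ℕ → List Str → Prop := fun n A =>
    (∀ σ ∈ A, ∃ v, n + 1 ≤ v ∧ σ.length = v * (n + 2) ∧ σ.length ≤ L n) ∧
    (A.map (w n)).sum + ∑ X ∈ (B (L n)).filter (fun X => ∀ τ ∈ A, ¬ τ <:+: X), M X ≤ 1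
  have nn : ∀ (s : Finset Str), 0 ≤ ∑ X ∈ s, M X := fun s => Finset.sum_nonneg fun X _ => hM.1 X
  obtain ⟨R, hR, h1⟩ := chain hS (I := I) (fun n => ⟨by simp, by simpa using hM.tot _⟩)
    (fun n A σ h1 h2 => by
      refine ⟨fun τ hτ => ?_, ?_⟩
      · rcases List.mem_cons.1 hτ with rfl | hτ
        exacts [⟨_, h2.1⟩, h1.1 τ hτ]
      · have h3 := (G2 _ _).1 h2.2
        have h4 := h1.2
        rw [cand_sum] at h3
        rw [← Finset.sum_filter_add_sum_filter_not _ (σ <:+: ·)] at h4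
        rw [List.map_cons, List.sum_cons, Finset.filter_congr (q := fun X =>
          (∀ τ ∈ A, ¬ τ <:+: X) ∧ ¬ σ <:+: X) fun X _ => by simp [and_comm],
          ← Finset.filter_filter]
        linarith)
    fun n => ⟨2 ^ (4 * L n), fun A h1 => by
      have h2 := List.card_nsmul_le_sum (A.map (w n)) ((1 / 2) ^ (4 * L n)) fun x hx => by
        obtain ⟨σ, hσ, rfl⟩ := List.mem_map.1 hx
        obtain ⟨v, -, -, h⟩ := h1.1 σ hσ
        exact pow_le_pow_of_le_one (by norm_num) (by norm_num)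
          (Nat.mul_le_mul_left _ ((Nat.div_le_self _ _).trans h))
      have h3 := h2.trans ((le_add_of_nonneg_right (nn _)).trans h1.2)
      rw [List.length_map, nsmul_eq_mul, one_div, inv_pow, ← div_eq_mul_inv,
        div_le_one (by positivity)] at h3
      exact_mod_cast h3⟩
  refine ⟨R, hR, fun n => ?_⟩
  obtain ⟨A, h2, h3, h4⟩ := h1 n
  refine ⟨fun σ hσ => h2.1 σ ((h4 σ).1 hσ), fun v ⟨F, h5, h6⟩ => ?_, fun F hF => ?_⟩
  · have h7 : ∑ σ ∈ F, w n σ ≤ (A.map (w n)).sum :=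
      (Finset.sum_le_sum_of_subset_of_nonneg (fun σ hσ => List.mem_toFinset.2
        ((h4 σ).1 (h6 σ hσ).1)) fun _ _ _ => by positivity).trans (by
          rw [show A.toFinset = A.dedup.toFinset by ext; simp,
            List.sum_toFinset _ (List.nodup_dedup A)]
          exact List.Sublist.sum_le_sum ((List.dedup_sublist A).map _) (by
            intro x hx
            obtain ⟨σ, -, rfl⟩ := List.mem_map.1 hx
            positivity))
    rw [Finset.sum_congr rfl (g := fun _ => (1 / 2) ^ (4 * v)) fun σ hσ => by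
      simp only [w, (h6 σ hσ).2, Nat.mul_div_cancel _ (Nat.succ_pos _)]] at h7
    have h8 := h7.trans ((le_add_of_nonneg_right (nn _)).trans h2.2)
    rw [Finset.sum_const, nsmul_eq_mul, one_div, inv_pow, ← div_eq_mul_inv,
      div_le_one (by positivity)] at h8
    have : F.card ≤ 2 ^ (4 * v) := by exact_mod_cast h8
    omega
  · refine small M hM.1 n F (fun X hX => (hF X hX).1 ▸ hL2 n) fun σ v h5 h6 => ?_
    by_cases c : σ.length ≤ L n
    · have e : σ.length / (n + 2) = v := by rw [h6, Nat.mul_div_cancel _ (Nat.succ_pos _)]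
      have h7 := mt (G2 _ _).2 fun h => h3 σ ⟨⟨e ▸ h5, e ▸ h6, c⟩, h⟩
      rw [cand_sum, e, not_lt] at h7
      exact le_trans (Finset.sum_le_sum_of_subset_of_nonneg (Finset.filter_subset_filter _
        fun X hX => Finset.mem_filter.2 ⟨mem_B.2 (hF X hX).1, fun τ hτ =>
          (hF X hX).2 τ ((h4 τ).2 hτ)⟩) fun X _ _ => hM.1 X) h7
    · rw [Finset.filter_false_of_mem fun X hX h => c ((hF X hX).1 ▸ h.length_le)]
      simp

theorem dec_sur (n : ℕ) (q : Str) : ∃ p, dec p = (n, q) ∧ p.idxOf false = Nat.log 2 n + 1 ∧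
    p.length = q.length + 2 * Nat.log 2 n + 3 := by
  obtain ⟨w, h1, h2⟩ := val_surj _ n (Nat.lt_pow_succ_log_self one_lt_two n)
  refine ⟨List.replicate w.length true ++ false :: (w ++ q), ?_, by rw [idx_ones, h1], ?_⟩
  · have : (List.replicate w.length true ++ false :: (w ++ q)).drop (w.length + 1) = w ++ q := by
      simp [List.drop_append]
    rw [dec, idx_ones, this]
    simp [h2]
  · simp [h1]; omega

theorem OptP.enum {U : Str →. Str} (hU : OptP U) {R : ℕ → Str → Prop}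
    (h : Sig fun z : ℕ × Str => R z.1 z.2) {l : ℕ → ℕ} (hl : Primrec l) :
    ∃ c, ∀ a v, R a v → ¬ Many (2 ^ l a + 1) (R a) →
      ∃ q, v ∈ U q ∧ q.length ≤ l a + 2 * Nat.log 2 a + c := by
  obtain ⟨en, he⟩ := h.enum
  have d1 : Primrec fun z : Str × Str => dec z.1 := dec_prim.comp Primrec.fst
  have d2 : Primrec fun z : Str × Str => z.1.idxOf false := idx_prim.comp Primrec.fst
  have h1 : Sig fun z : Str × Str => z.1.length = 2 * z.1.idxOf false + 1 + l (dec z.1).1 ∧
      ∃ t, (en (dec z.1).1 t)[val (dec z.1).2]? = some z.2 :=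
    (Sig.prim (Primrec.eq.comp (Primrec.list_length.comp Primrec.fst) (Primrec.nat_add.comp
      (Primrec.succ.comp (Primrec.nat_double.comp d2)) (hl.comp (Primrec.fst.comp d1))))).and
      (he.sig (Primrec.fst.comp d1) (val_prim.comp (Primrec.snd.comp d1)) Primrec.snd)
  obtain ⟨M, h2, h3, h4⟩ := Sig.unif (R := fun p v => p.length = 2 * p.idxOf false + 1 +
    l (dec p).1 ∧ ∃ t, (en (dec p).1 t)[val (dec p).2]? = some v) h1
  obtain ⟨c, hc⟩ := hU.2 M ⟨h2, fun p q hp hq e => by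
    have h5 := (h3 _ _ (Part.get_mem hp)).1
    have h6 := (h3 _ _ (Part.get_mem hq)).1
    obtain ⟨r, rfl⟩ := e
    have h7 : (p ++ r).idxOf false = p.idxOf false :=
      List.idxOf_append_of_mem (List.idxOf_lt_length_iff.1 (by omega))
    have h8 : (dec (p ++ r)).1 = (dec p).1 := by
      simp only [dec, h7]
      rw [List.drop_append_of_le_length (by omega),
        List.take_append_of_le_length (by rw [List.length_drop]; omega)]
    rw [h7, h8, ← h5, List.length_append] at h6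
    rw [List.length_eq_zero_iff.1 (show r.length = 0 by omega), List.append_nil]⟩
  refine ⟨c + 3, fun a v h5 h6 => ?_⟩
  obtain ⟨j, hj, t, ht⟩ := he.idx h5 h6
  obtain ⟨w, hw, rfl⟩ := val_surj _ j hj
  obtain ⟨p, e1, l2, l1⟩ := dec_sur a w
  obtain ⟨v', hv⟩ := h4 p v ⟨by rw [e1]; dsimp only; omega, t, by simpa [e1] using ht⟩
  obtain ⟨-, t', h8⟩ := h3 _ _ hv
  rw [e1] at h8
  obtain rfl := (he.get ht h8).1
  obtain ⟨q, h9, h10⟩ := hc _ _ hv
  exact ⟨q, h9, by omega⟩

def top : ℕ → ℕ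
  | 0 => 2
  | n + 1 => top n + tw (n + 3) (n + 1) (n + 2) * (n + 3)

theorem top_mono : Monotone top := monotone_nat_of_le_succ fun _ => Nat.le_add_right _ _

theorem tw_top : ∀ n, tw (n + 2) n (n + 1) * (n + 2) ≤ top n
  | 0 => le_rfl
  | _ + 1 => Nat.le_add_left _ _

theorem le_top (n : ℕ) : (n + 1) * (n + 2) ≤ top n :=
  (Nat.mul_le_mul_right _ (le_tw _ _ _)).trans (tw_top n)

theorem tw_it (D : ℕ) : ∀ a u, tw D a u = (fun u => u * 2 ^ (u * D))^[a] u
  | 0, _ => rfl
  | a + 1, _ => tw_it D a _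

theorem top_prim : Primrec top := by
  have h1 : Primrec fun n => tw (n + 3) (n + 1) (n + 2) :=
    (Primrec.nat_iterate (h := fun n u => u * 2 ^ (u * (n + 3))) Primrec.succ
      (Primrec.nat_add.comp Primrec.id (Primrec.const 2)) (Primrec.nat_mul.comp Primrec.snd
        (pow2.comp (Primrec.nat_mul.comp Primrec.snd (Primrec.nat_add.comp Primrec.fst
          (Primrec.const 3))))).to₂).of_eq fun n => (tw_it _ _ _).symm
  refine (Primrec.nat_rec₁ 2 (Primrec.nat_add.comp Primrec.snd (Primrec.nat_mul.comp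
    (h1.comp Primrec.fst) (Primrec.nat_add.comp Primrec.fst (Primrec.const 3)))).to₂).of_eq
    fun n => ?_
  induction n with
  | zero => rfl
  | succ n ih => rw [top, ← ih]

/-- The order function. -/
def ff (i : ℕ) : ℕ := ((List.range (i + 1)).map fun n => 5 * (min i (top n) / (n + 2))).foldr max 0

theorem ff_le {i b : ℕ} : ff i ≤ b ↔ ∀ n ≤ i, 5 * (min i (top n) / (n + 2)) ≤ b := by
  have : ∀ l : List ℕ, l.foldr max 0 ≤ b ↔ ∀ x ∈ l, x ≤ b := fun l => by
    induction l with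
    | nil => simp
    | cons x l ih => simp [ih]
  simp [ff, this]

theorem le_ff {i n : ℕ} (h : n ≤ i) : 5 * (min i (top n) / (n + 2)) ≤ ff i := ff_le.1 le_rfl n h

theorem ff_ord : Ord ff := by
  have h : Monotone ff := fun i j h => ff_le.2 fun n hn => le_trans (Nat.mul_le_mul_left _
    (Nat.div_le_div_right (min_le_min_right _ h))) (le_ff (hn.trans h))
  refine ⟨(Primrec.list_foldr (Primrec.list_map (Primrec.list_range.comp Primrec.succ)
    (Primrec.nat_mul.comp (Primrec.const 5) (Primrec.nat_div.comp (Primrec.nat_min.comp Primrec.fst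
      (top_prim.comp Primrec.snd)) (Primrec.nat_add.comp Primrec.snd (Primrec.const 2)))).to₂)
    (Primrec.const 0) (h := fun _ z => max z.1 z.2) (Primrec.nat_max.comp
      (Primrec.fst.comp Primrec.snd) (Primrec.snd.comp Primrec.snd)).to₂).to_comp, h,
    h.tendsto_atTop_atTop fun b => ⟨top b, ?_⟩⟩
  have h1 := le_top b
  have h2 := le_ff (i := top b) (n := b) (by nlinarith)
  have h3 : b + 1 ≤ top b / (b + 2) := (Nat.le_div_iff_mul_le (by omega)).2 h1
  rw [min_self] at h2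
  omega

theorem ff_lim : Tendsto (fun i : ℕ => (ff i : ℝ) / i) atTop (nhds 0) := by
  refine tendsto_order.2 ⟨fun a ha => Eventually.of_forall fun i => ha.trans_le (by positivity),
    fun a ha => ?_⟩
  obtain ⟨m, hm⟩ := exists_nat_gt (5 / a)
  filter_upwards [eventually_ge_atTop (top m * (m + 2))] with i hi
  have h0 := le_top m
  have h1 : ff i ≤ 5 * (i / (m + 2)) := ff_le.2 fun n _ => Nat.mul_le_mul_left _ (by
    rcases le_total n m with h | h
    · exact ((Nat.div_le_self _ _).trans ((min_le_right _ _).trans (top_mono h))).trans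
        ((Nat.le_div_iff_mul_le (by omega)).2 hi)
    · exact Nat.div_le_div (min_le_left _ _) (by omega) (by omega))
  have h2 : ff i * (m + 2) ≤ 5 * i := by
    have := Nat.div_mul_le_self i (m + 2)
    nlinarith
  have h3 : (ff i : ℝ) * (m + 2) ≤ 5 * i := by exact_mod_cast h2
  have h4 : (0 : ℝ) < i := by exact_mod_cast (by nlinarith : 0 < i)
  rw [div_lt_iff₀ ha] at hm
  rw [div_lt_iff₀ h4]
  refine lt_of_mul_lt_mul_right (a := (m : ℝ) + 2) ?_ (by positivity)
  nlinarith [mul_pos ha h4, mul_lt_mul_of_pos_right hm h4]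

theorem lin (C : ℕ) : ∃ m, ∀ v, m ≤ v → 4 * Nat.log 2 (v + 1) + C < v := by
  refine ⟨2 ^ (C + 8), fun v hv => ?_⟩
  have h1 := Nat.pow_log_le_self 2 (show v + 1 ≠ 0 by omega)
  have h2 : C + 8 ≤ Nat.log 2 (v + 1) := Nat.le_log_of_pow_le one_lt_two (by omega)
  obtain ⟨k, hk⟩ := Nat.exists_eq_add_of_le (show 3 ≤ Nat.log 2 (v + 1) by omega)
  have h3 := Nat.lt_two_pow_self (n := k)
  rw [hk, pow_add] at h1
  omega

theorem infix_pre {X : ℕ → Bool} {L : ℕ} {σ : Str} (h : σ <:+: pre X L) :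
    ∃ i, σ = pre (fun j => X (i + j)) σ.length := by
  obtain ⟨s, t, e⟩ := h
  refine ⟨s.length, List.ext_getElem (pre_len _ _).symm fun j h1 h2 => ?_⟩
  have h3 : s.length + j < (pre X L).length := by simp [← e]; omega
  have h4 : (pre X L)[s.length + j] = σ[j] := by simp [← e, h1]
  simpa [pre] using h4.symm

theorem deep {U : Str →. Str} (hU : OptP U) {M : Str → ℝ} (hM : Semi M) (c : ℕ) :
    Deep M (SC U (fun n => ff n) c) := by
  obtain ⟨R, hR, h1⟩ := proc hM top_prim tw_top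
  have a1 : Primrec fun a : ℕ => a.unpair.1 := Primrec.fst.comp Primrec.unpair
  have a2 : Primrec fun a : ℕ => a.unpair.2 := Primrec.snd.comp Primrec.unpair
  obtain ⟨d, hd⟩ := hU.enum (R := fun a σ => R a.unpair.1 σ ∧
    σ.length = a.unpair.2 * (a.unpair.1 + 2)) ((hR.comp ((a1.comp Primrec.fst).pair
      Primrec.snd)).and (Sig.prim (Primrec.eq.comp (Primrec.list_length.comp Primrec.snd)
        (Primrec.nat_mul.comp (a2.comp Primrec.fst) (Primrec.nat_add.comp (a1.comp Primrec.fst)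
          (Primrec.const 2)))))) (Primrec.nat_mul.comp (Primrec.const 4) a2)
  obtain ⟨m, hm⟩ := lin (d + c + 2)
  have h0 : Monotone fun n => top (n + m) := fun a b h => top_mono (by omega)
  refine ⟨fun n => top (n + m), ⟨(top_prim.comp (Primrec.nat_add.comp Primrec.id
    (Primrec.const m))).to_comp, h0, h0.tendsto_atTop_atTop fun b => ⟨b, ?_⟩⟩, fun n F hF => ?_⟩
  · nlinarith [le_top (b + m)]
  obtain ⟨h2, h3, h4⟩ := h1 (n + m)
  refine (h4 F fun Y hY => ?_).trans (pow_le_pow_of_le_one (by norm_num) (by norm_num) (by omega))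
  obtain ⟨X, hX, rfl⟩ := hF Y hY
  refine ⟨pre_len _ _, fun σ hσ h => ?_⟩
  obtain ⟨v, h5, h6, h7⟩ := h2 σ hσ
  obtain ⟨i, hi⟩ := infix_pre h
  have h8' := hX i σ.length
  rw [← hi, sub_le_iff_le_add] at h8'
  dsimp only at h8'
  have h8 : ff σ.length ≤ K U σ + c := by exact_mod_cast h8'
  obtain ⟨q, hq, h9⟩ := hd (Nat.pair (n + m) v) σ (by simpa using ⟨hσ, h6⟩) (by simpa using h3 v)
  have hq' := K_le hq
  have h10 := le_ff (i := σ.length) (n := n + m) (by nlinarith)
  rw [min_eq_left h7, h6, Nat.mul_div_cancel _ (Nat.succ_pos _), ← h6] at h10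
  have h11 := hm v (by omega)
  have h12 : Nat.log 2 (Nat.pair (n + m) v) ≤ 2 * Nat.log 2 (v + 1) + 1 := by
    have h := Nat.pair_lt_max_add_one_sq (n + m) v
    rw [max_eq_right (by omega)] at h
    have h' := Nat.lt_pow_succ_log_self one_lt_two (v + 1)
    refine Nat.le_of_lt_succ (Nat.log_lt_of_lt_pow' (by omega) (h.trans_le ?_))
    rw [show (2 * Nat.log 2 (v + 1) + 1).succ = (Nat.log 2 (v + 1)).succ * 2 by omega, pow_mul]
    exact Nat.pow_le_pow_left h'.le 2
  simp only [Nat.unpair_pair] at h9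
  omega

end Pool.Agent.H.MP_c57dc8_lc
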