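import Pool.Agent.H.MP_c57dc8_lc.B
import Pool.Agent.Lib.helper21.Coin

set_option autoImplicit false

/-! Deep for every enumerable semimeasure gives negligible. -/

namespace Pool.Agent.H.MP_c57dc8_lc

open Pool.Agent.H.MP_d04dff_lc Pool.Agent.H.MP_fa2eca_lc Filter MeasureTheory
open Pool.Agent.Lib.helper21 Pool.Agent.Lib.helper21.CPred

def T (e : ℕ) (σ : Str) (s : ℕ) (Y : ℕ → Bool) : Prop := ∀ j < σ.length, ∃ u < s,
  Fn.att e Y u j = (σ.getD j false).toNat + 1 ∧ ∀ u' < u, Fn.att e Y u' j = 0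

theorem T_loc (e : ℕ) (σ : Str) (s : ℕ) : Fn.Loc s (T e σ s) := fun _ _ h hY j hj =>
  let ⟨u, h1, h2, h3⟩ := hY j hj
  ⟨u, h1, Fn.att_congr e h h1.le j ▸ h2, fun u' hu => Fn.att_congr e h (hu.trans h1).le j ▸ h3 u' hu⟩

theorem T_comp (e : ℕ) : ComputablePred fun z : (Str × ℕ) × ℕ => T e z.1.1 z.1.2 (Fn.tb z.2) := by
  have a1 : ∀ {α : Type} [Primcodable α] {m u j : α → ℕ}, Computable m → Computable u →
      Computable j → Computable fun a => Fn.att e (Fn.tb (m a)) (u a) (j a) := fun hm hu hj =>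
    Fn.att_comp (Computable.const e) (Fn.tb_prim.to_comp.comp (hm.comp Computable.fst)
      Computable.snd).to₂ hu hj
  have a2 : ComputablePred fun x : ((((Str × ℕ) × ℕ) × ℕ) × ℕ) × ℕ =>
      Fn.att e (Fn.tb x.1.1.1.2) x.2 x.1.1.2 = 0 :=
    ceq (a1 (Computable.snd.comp (Computable.fst.comp (Computable.fst.comp Computable.fst)))
      Computable.snd (Computable.snd.comp (Computable.fst.comp Computable.fst)))
      (Computable.const 0)
  have a3 : Primrec fun x : (((Str × ℕ) × ℕ) × ℕ) × ℕ => (x.1.1.1.1.getD x.1.2 false).toNat + 1 :=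
    Primrec.succ.comp (Fn.toNat_prim.comp ((Primrec.list_getD false).comp (Primrec.fst.comp
      (Primrec.fst.comp (Primrec.fst.comp Primrec.fst))) (Primrec.snd.comp Primrec.fst)))
  have a4 : ComputablePred fun x : (((Str × ℕ) × ℕ) × ℕ) × ℕ =>
      Fn.att e (Fn.tb x.1.1.2) x.2 x.1.2 = (x.1.1.1.1.getD x.1.2 false).toNat + 1 ∧
        ∀ u' < x.2, Fn.att e (Fn.tb x.1.1.2) u' x.1.2 = 0 :=
    CPred.cand (ceq (a1 (Computable.snd.comp (Computable.fst.comp Computable.fst)) Computable.snd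
      (Computable.snd.comp Computable.fst)) a3.to_comp) (call
        (p := fun (x : (((Str × ℕ) × ℕ) × ℕ) × ℕ) u => Fn.att e (Fn.tb x.1.1.2) u x.1.2 = 0)
        a2 Computable.snd)
  have a5 := cex (p := fun (x : ((Str × ℕ) × ℕ) × ℕ) u =>
      Fn.att e (Fn.tb x.1.2) u x.2 = (x.1.1.1.getD x.2 false).toNat + 1 ∧
        ∀ u' < u, Fn.att e (Fn.tb x.1.2) u' x.2 = 0) a4
    (Computable.snd.comp (Computable.fst.comp Computable.fst))
  exact call (p := fun (z : (Str × ℕ) × ℕ) j => ∃ u < z.1.2,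
    Fn.att e (Fn.tb z.2) u j = (z.1.1.getD j false).toNat + 1 ∧
      ∀ u' < u, Fn.att e (Fn.tb z.2) u' j = 0) a5
    (Computable.list_length.comp (Computable.fst.comp Computable.fst))

def S (e : ℕ) (σ : Str) : Set (ℕ → Bool) := ⋃ s, {Y | T e σ s Y}

theorem semi (e : ℕ) : Semi fun σ => Fn.mu.real (S e σ) := by
  classical
  have hm : ∀ σ, MeasurableSet (S e σ) := fun σ =>
    MeasurableSet.iUnion fun s => (T_loc e σ s).closed.measurableSet
  refine ⟨fun _ => measureReal_nonneg, measureReal_le_one, fun σ => ?_, ?_⟩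
  · rw [← measureReal_union _ (hm _)]
    · refine measureReal_mono ?_
      have : ∀ b, S e (σ ++ [b]) ⊆ S e σ := fun b => Set.iUnion_mono fun s Y hY j hj => by
        simpa [List.getD_eq_getElem?_getD, List.getElem?_append_left hj] using
          hY j (by simp; omega)
      exact Set.union_subset (this _) (this _)
    · refine Set.disjoint_left.2 fun Y h1 h2 => ?_
      obtain ⟨s, h1⟩ := Set.mem_iUnion.1 h1
      obtain ⟨t, h2⟩ := Set.mem_iUnion.1 h2
      obtain ⟨u, -, a1, a2⟩ := h1 σ.length (by simp)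
      obtain ⟨v, -, b1, b2⟩ := h2 σ.length (by simp)
      simp only [List.getD_eq_getElem?_getD, List.getElem?_concat_length, Option.getD_some,
        Bool.toNat_false, Bool.toNat_true] at a1 b1
      rcases lt_trichotomy u v with h | rfl | h
      · have := b2 u h; omega
      · omega
      · have := a2 v h; omega
  · have a1 := Fn.ccount (p := fun (z : Str × ℕ) m => T e z.1 z.2 (Fn.tb m)) (T_comp e)
      (pow2.to_comp.comp Computable.snd)
    have a2 : Computable fun x : (Str × ℕ × ℕ) × ℕ =>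
        ((Finset.range (2 ^ x.2)).filter fun m => T e x.1.1 x.2 (Fn.tb m)).card :=
      (a1.comp ((Computable.fst.comp Computable.fst).pair Computable.snd)).of_eq fun _ => rfl
    have a3 : Primrec fun x : (Str × ℕ × ℕ) × ℕ => x.1.2.1 * 2 ^ x.2 := Primrec.nat_mul.comp
      (Primrec.fst.comp (Primrec.snd.comp Primrec.fst)) (pow2.comp Primrec.snd)
    have a4 : Primrec fun x : (Str × ℕ × ℕ) × ℕ => 2 ^ x.1.2.2 :=
      pow2.comp (Primrec.snd.comp (Primrec.snd.comp Primrec.fst))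
    refine (cre (p := fun (z : Str × ℕ × ℕ) s => z.2.1 * 2 ^ s <
      ((Finset.range (2 ^ s)).filter fun m => T e z.1 s (Fn.tb m)).card * 2 ^ z.2.2)
      (clt a3.to_comp (Primrec.nat_mul.to_comp.comp a2 a4.to_comp))).of_eq fun z => ?_
    dsimp only
    rw [Measure.real, ← ENNReal.ofReal_lt_iff_lt_toReal (by positivity) (measure_ne_top _ _), S,
      Monotone.measure_iUnion (s := fun s => {Y | T e z.1 s Y}) fun s t h Y hY j hj =>
        let ⟨u, h1, h2⟩ := hY j hj; ⟨u, h1.trans_le h, h2⟩, lt_iSup_iff]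
    refine exists_congr fun s => ?_
    rw [ENNReal.ofReal_lt_iff_lt_toReal (by positivity) (measure_ne_top _ _),
      Fn.mu_loc (T_loc e z.1 s)]
    simp only [ENNReal.toReal_mul, ENNReal.toReal_natCast, ENNReal.toReal_pow, ENNReal.toReal_inv,
      ENNReal.toReal_ofNat, inv_pow, ← div_eq_mul_inv]
    rw [div_lt_div_iff₀ (by positivity) (by positivity)]
    norm_cast

theorem negl {P : Set (ℕ → Bool)}
    (h : ∀ M, Semi M → ∃ N, Deep N P ∧ ∃ d : ℝ, ∀ σ, M σ ≤ |d| * N σ) :
    Fn.mu {Y | ∃ X ∈ P, TuringReducible (orc X) (orc Y)} = 0 := by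
  classical
  refine measure_mono_null (t := ⋃ e, {Y | ∃ X ∈ P, ∀ n, Y ∈ S e (pre X n)})
    (fun Y ⟨X, h1, h2⟩ => ?_) (measure_iUnion_null fun e => ?_)
  · obtain ⟨e, he⟩ := Fn.complete Y (fun n => (X n).toNat) h2
    refine Set.mem_iUnion.2 ⟨e, X, h1, fun n => Set.mem_iUnion.2
      ⟨(Finset.range n).sup fun j => Nat.find (he j).1 + 1, fun j hj => ?_⟩⟩
    rw [pre_len] at hj
    refine ⟨Nat.find (he j).1, Finset.le_sup (f := fun j => Nat.find (he j).1 + 1)
      (Finset.mem_range.2 hj), ?_, fun u hu => not_not.1 (Nat.find_min (he j).1 hu)⟩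
    rw [(he j).2 _ (Nat.find_spec (he j).1)]
    simp [pre, hj]
  · obtain ⟨N, ⟨g, -, hg⟩, d, hd⟩ := h _ (semi e)
    rw [← measureReal_eq_zero_iff]
    have h0 := (tendsto_pow_atTop_nhds_zero_of_lt_one
      (show (0 : ℝ) ≤ 1 / 2 by norm_num) (by norm_num)).const_mul |d|
    rw [mul_zero] at h0
    refine le_antisymm (ge_of_tendsto' h0 fun n => ?_) measureReal_nonneg
    refine le_trans (le_trans (measureReal_mono (fun Y ⟨X, h1, h2⟩ => ?_) (measure_ne_top _ _))
      (measureReal_biUnion_finset_le _ _)) (((Finset.sum_le_sum fun σ _ => hd σ).trans_eq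
        (Finset.mul_sum _ _ _).symm).trans (mul_le_mul_of_nonneg_left
        (hg n ((B (g n)).filter fun σ => ∃ X ∈ P, σ = pre X (g n))
        fun σ hσ => (Finset.mem_filter.1 hσ).2) (abs_nonneg d)))
    exact Set.mem_biUnion (Finset.mem_filter.2 ⟨mem_B.2 (pre_len _ _), X, h1, rfl⟩) (h2 _)

theorem mu_inj {φ : ℕ → ℕ} {ψ : ℕ → Bool} {r : ℕ} (h : Set.InjOn φ (Finset.range r)) :
    Fn.mu {Y | ∀ k < r, Y (φ k) = ψ k} ≤ 2⁻¹ ^ r := by
  rcases Set.eq_empty_or_nonempty {Y : ℕ → Bool | ∀ k < r, Y (φ k) = ψ k} with e | ⟨Z, hZ⟩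
  · simp [e]
  · have := Fn.mu_cyl ((Finset.range r).image φ) Z
    rw [Finset.card_image_of_injOn h, Finset.card_range] at this
    rw [← this]
    refine measure_mono fun Y hY i hi => ?_
    obtain ⟨k, hk, rfl⟩ := Finset.mem_image.1 hi
    rw [hY k (Finset.mem_range.1 hk), hZ k (Finset.mem_range.1 hk)]

theorem kraft {U : Str →. Str} (hU : OptP U) : ∑' σ, (2⁻¹ : ENNReal) ^ K U σ ≤ 1 := by
  obtain ⟨c, hc⟩ := hU.enum (R := fun a v => Encodable.encode v = a)
    (KC.Sig.prim (Primrec.eq.comp (Primrec.encode.comp Primrec.snd) Primrec.fst)) (Primrec.const 0)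
  have h1 : ∀ σ, ∃ q, σ ∈ U q ∧ q.length = K U σ := fun σ =>
    let ⟨_, h, _⟩ := hc _ σ rfl fun ⟨F, h1, h2⟩ => by
      obtain ⟨a, ha, b, hb, e⟩ := Finset.one_lt_card.1 (show 1 < F.card from h1)
      exact e (Encodable.encode_injective ((h2 a ha).trans (h2 b hb).symm))
    K_spec h
  choose q h2 h3 using h1
  let C : Str → Set (ℕ → Bool) := fun σ =>
    {Z | ∀ i ∈ Finset.range (q σ).length, Z i = (q σ).getD i false}
  have h4 : ∀ σ Z, Z ∈ C σ → q σ = pre Z (q σ).length := fun σ Z h =>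
    List.ext_getElem (pre_len _ _).symm fun i h5 _ => by
      simpa [pre, h5] using (h i (Finset.mem_range.2 h5)).symm
  have h5 : ∀ σ τ Z, Z ∈ C σ → Z ∈ C τ → (q σ).length ≤ (q τ).length → σ = τ := by
    intro σ τ Z a b h
    have := hU.1.2 _ _ (Part.dom_iff_mem.2 ⟨_, h2 σ⟩) (Part.dom_iff_mem.2 ⟨_, h2 τ⟩) (by
      rw [h4 _ _ a, ← pre_take Z h, ← h4 _ _ b]; exact List.take_prefix _ _)
    exact Part.mem_unique (h2 σ) (this ▸ h2 τ)
  have h6 := measure_iUnion (μ := Fn.mu) (f := C) (fun σ τ e => Set.disjoint_left.2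
    fun Z a b => e ((le_total _ _).elim (h5 _ _ Z a b) fun h => (h5 _ _ Z b a h).symm))
    fun σ => (Fn.Loc.closed (s := (q σ).length) (S := fun Z => Z ∈ C σ) fun Z Z' e hZ i hi =>
      (e i (Finset.mem_range.1 hi)).symm.trans (hZ i hi)).measurableSet
  simp only [C, Fn.mu_cyl, Finset.card_range, h3] at h6
  exact h6 ▸ prob_le_one

def vl (p : ℕ) : ℕ := (List.range (p + 1)).findIdx fun j => decide ((p + 1) % 2 ^ (j + 1) ≠ 0)

def gg (p : ℕ) : ℕ := Nat.pair (vl p) (p % 2 ^ 2 ^ (vl p + 4))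

theorem vl_eq {p j : ℕ} (h : (p + 1) % 2 ^ (j + 1) = 2 ^ j) : vl p = j := by
  have h1 : j < p + 1 := Nat.lt_two_pow_self.trans_le (h ▸ Nat.mod_le _ _)
  refine (List.findIdx_eq (by simpa using h1)).2 ⟨by simp [h], fun i hi => ?_⟩
  have := Nat.mod_mod_of_dvd (p + 1) (pow_dvd_pow 2 (show i + 1 ≤ j + 1 by omega))
  rw [h, Nat.mod_eq_zero_of_dvd (pow_dvd_pow 2 hi)] at this
  simp [← this]

theorem gg_prim : Primrec gg := by
  have h : Primrec vl := Primrec.list_findIdx (Primrec.list_range.comp Primrec.succ)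
    (Primrec.eq.comp (Primrec.nat_mod.comp (Primrec.succ.comp Primrec.fst)
      (pow2.comp (Primrec.succ.comp Primrec.snd))) (Primrec.const 0)).not.decide
  exact Primrec₂.natPair.comp h (Primrec.nat_mod.comp Primrec.id
    (pow2.comp (pow2.comp (Primrec.nat_add.comp h (Primrec.const 4)))))

theorem rare (σ : Str) (h : 256 ≤ σ.length) : ∃ F : ℕ, σ.length / Real.logb 2 σ.length ≤ F ∧
    Fn.mu {Y | ∃ i, pre (fun t => Y (gg (i + t))) σ.length = σ} ≤ 2⁻¹ ^ F := by
  generalize hm : σ.length = m at h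
  have a1 : 8 ≤ Nat.log 2 m := Nat.le_log_of_pow_le one_lt_two h
  obtain ⟨j, hj⟩ := Nat.exists_eq_add_of_le' (show 3 ≤ Nat.log 2 (Nat.log 2 m) from
    Nat.le_log_of_pow_le one_lt_two a1)
  have a2 : 2 ^ (j + 3) ≤ Nat.log 2 m := hj ▸ Nat.pow_log_le_self 2 (by omega)
  have a3 : m < 2 ^ 2 ^ (j + 4) := (Nat.lt_pow_succ_log_self one_lt_two m).trans_le
    (Nat.pow_le_pow_right (by norm_num) (by
      have := Nat.lt_pow_succ_log_self one_lt_two (Nat.log 2 m)
      rw [hj] at this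
      exact this))
  have a4 : 2 ^ (j + 4) ≤ m / 2 ^ (j + 3) := by
    rw [Nat.le_div_iff_mul_le (by positivity), ← pow_add]
    refine le_trans (Nat.pow_le_pow_right (by norm_num) (le_trans ?_ a2))
      (Nat.pow_log_le_self 2 (by omega))
    have := Nat.lt_two_pow_self (n := j)
    rw [pow_add]
    omega
  have a5 : 4 * (m / 2 ^ (j + 3)) ≤ m / 2 ^ (j + 1) := by
    rw [Nat.le_div_iff_mul_le (by positivity)]
    refine le_trans (le_of_eq ?_) (Nat.div_mul_le_self m (2 ^ (j + 3)))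
    ring
  refine ⟨m / 2 ^ (j + 3) + 1, ?_, ?_⟩
  · have b1 : ((2 ^ (j + 3) : ℕ) : ℝ) ≤ Real.logb 2 m :=
      (Nat.cast_le.2 a2).trans (by simpa using Real.natLog_le_logb m 2)
    refine (div_le_div_of_nonneg_left (by positivity) (by positivity) b1).trans ?_
    rw [div_le_iff₀ (by positivity)]
    exact_mod_cast (mul_comm (2 ^ (j + 3)) _ ▸ Nat.lt_mul_div_succ m (by positivity)).le
  · refine le_trans (measure_mono (t := ⋃ z ∈ Finset.range (2 ^ 2 ^ (j + 4)) ×ˢ
      Finset.range (2 ^ (j + 1)), {Y | ∀ k < m / 2 ^ (j + 1), Y (Nat.pair j ((z.1 + 2 ^ (j + 1) * k)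
        % 2 ^ 2 ^ (j + 4))) = σ.getD (z.2 + 2 ^ (j + 1) * k) false}) fun Y ⟨i, hi⟩ => ?_)
      ((measure_biUnion_finset_le _ _).trans ((Finset.sum_le_card_nsmul _ _ _ fun z _ =>
        mu_inj fun k hk k' hk' e => ?_).trans ?_))
    · obtain ⟨t, h1, h2⟩ : ∃ t < 2 ^ (j + 1), (i + t + 1) % 2 ^ (j + 1) = 2 ^ j := by
        refine ⟨(2 ^ j + (2 ^ (j + 1) - 1) * (i + 1)) % 2 ^ (j + 1), Nat.mod_lt _ (by positivity),
          ?_⟩
        obtain ⟨D, hD⟩ := Nat.exists_eq_add_of_le' (Nat.one_le_two_pow (n := j + 1))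
        rw [add_right_comm, Nat.add_mod_mod, show i + 1 + (2 ^ j + (2 ^ (j + 1) - 1) * (i + 1)) =
          2 ^ j + 2 ^ (j + 1) * (i + 1) by rw [hD, Nat.add_sub_cancel]; ring, Nat.add_mul_mod_self_left,
          Nat.mod_eq_of_lt (Nat.pow_lt_pow_right one_lt_two (by omega))]
      refine Set.mem_biUnion (x := ((i + t) % 2 ^ 2 ^ (j + 4), t)) (Finset.mem_product.2
        ⟨Finset.mem_range.2 (Nat.mod_lt _ (by positivity)), Finset.mem_range.2 h1⟩) fun k hk => ?_
      have b1 : t + 2 ^ (j + 1) * k < m := by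
        have := (Nat.le_div_iff_mul_le (by positivity)).1 (Nat.succ_le_of_lt hk)
        rw [Nat.succ_mul, mul_comm] at this
        omega
      have b2 : vl (i + (t + 2 ^ (j + 1) * k)) = j := vl_eq (by
        rw [← h2, ← add_assoc, add_right_comm, Nat.add_mul_mod_self_left])
      rw [← hi]
      simp only [pre, List.getD_eq_getElem?_getD, List.getElem?_map, List.getElem?_range b1,
        Option.map_some, Option.getD_some, gg, b2, Nat.mod_add_mod, add_assoc]
    · have b1 : ∀ k ∈ (Finset.range (m / 2 ^ (j + 1)) : Set ℕ), 2 ^ (j + 1) * k < 2 ^ 2 ^ (j + 4) :=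
        fun k hk => lt_of_le_of_lt ((Nat.mul_le_mul_left _ (Finset.mem_range.1 hk).le).trans
          (Nat.mul_div_le _ _)) a3
      exact Nat.eq_of_mul_eq_mul_left (by positivity) ((Nat.ModEq.add_left_cancel' _
        (Nat.pair_eq_pair.1 e).2).eq_of_lt_of_lt (b1 k hk) (b1 k' hk'))
    · obtain ⟨d, hd⟩ := Nat.exists_eq_add_of_le (show 2 ^ (j + 4) + (j + 1) + (m / 2 ^ (j + 3) + 1) ≤
        m / 2 ^ (j + 1) by have := Nat.lt_two_pow_self (n := j + 4); omega)
      rw [Finset.card_product, Finset.card_range, Finset.card_range, ← pow_add, hd, pow_add _ _ d,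
        pow_add _ (_ + _), nsmul_eq_mul, Nat.cast_pow, ← mul_assoc, ← mul_assoc, ← mul_pow,
        Nat.cast_ofNat, ENNReal.mul_inv_cancel (by simp) (by simp), one_pow, one_mul]
      exact mul_le_of_le_one_right' (pow_le_one' (by simp) _)

theorem inst {U : Str →. Str} (hU : OptP U) : Fn.mu {Y | ∃ X ∈ SC U (fun n => n / Real.logb 2 n) 256,
    TuringReducible (orc X) (orc Y)} ≠ 0 := by
  intro h0
  have h1 : Fn.mu (⋃ σ : Str, {Y | (K U σ : ℝ) < σ.length / Real.logb 2 σ.length - (256 : ℕ) ∧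
      ∃ i, pre (fun t => Y (gg (i + t))) σ.length = σ}) ≤ 2⁻¹ := by
    refine (measure_iUnion_le _).trans (le_trans (ENNReal.tsum_le_tsum (g := fun σ =>
      2⁻¹ * 2⁻¹ ^ K U σ) fun σ => ?_) ?_)
    · by_cases h : (K U σ : ℝ) < σ.length / Real.logb 2 σ.length - (256 : ℕ)
      · have h2 : 256 ≤ σ.length := by
          by_contra c
          have h3 : (σ.length : ℝ) / Real.logb 2 σ.length ≤ σ.length := by
            rcases le_or_gt σ.length 1 with h | h
            · interval_cases σ.length <;> simp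
            · exact div_le_self (by positivity) (by
                rw [Real.le_logb_iff_rpow_le one_lt_two (by positivity), Real.rpow_one]
                exact_mod_cast h)
          have h4 : (σ.length : ℝ) < (256 : ℕ) := by exact_mod_cast not_le.1 c
          exact absurd (h.trans_le (sub_nonpos.2 (h3.trans h4.le))) (not_lt.2 (Nat.cast_nonneg _))
        obtain ⟨F, h3, h4⟩ := rare σ h2
        have h5 : K U σ + 256 < F := by
          rw [← Nat.cast_lt (α := ℝ), Nat.cast_add]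
          exact (lt_sub_iff_add_lt.1 h).trans_le h3
        refine (measure_mono fun Y hY => hY.2).trans (h4.trans ?_)
        rw [← pow_succ']
        exact pow_le_pow_right_of_le_one' (by simp) (by omega)
      · exact le_trans (measure_mono (t := ∅) fun Y hY => h hY.1) (by simp)
    · rw [ENNReal.tsum_mul_left]
      exact mul_le_of_le_one_right' (kraft hU)
  have h2 := (measure_mono (μ := Fn.mu) (s := Set.univ) fun Y _ => ?_).trans
    ((measure_union_le _ _).trans (add_le_add h0.le h1))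
  · rw [measure_univ, zero_add] at h2
    exact absurd h2 (by simp)
  · refine or_iff_not_imp_right.2 fun c => ⟨fun p => Y (gg p), fun i n => ?_, ?_⟩
    · by_contra c2
      exact c (Set.mem_iUnion.2 ⟨_, by rw [pre_len]; exact not_le.1 c2, i, by rw [pre_len]⟩)
    · exact RecursiveIn.iff_nat.2 ((Nat.RecursiveIn.comp (Nat.RecursiveIn.oracle (orc Y)
        (Set.mem_singleton _))
        (Primrec.nat_iff.1 gg_prim).recursiveIn).of_eq fun n => by simp [orc])

end Pool.Agent.H.MP_c57dc8_lc
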